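import Pool.Agent.Helper74.AS.Final

/-!
Smooth approximation of continuous maps on Asplund spaces.
-/

set_option autoImplicit false

namespace Pool.Agent.Results.MP_e94b74_an.AsplundSpaces

/-- For a real Banach space `X` the following are equivalent:
1. every separable subspace of `X` has separable dual (`X` is an Asplund space);
2. `X` admits a Fréchet differentiable bump function;
3. `X` admits a `C¹`-smooth bump function;
4. every continuous map from `X` to any real normed space is uniformly approximable by
   `C¹`-smooth maps. -/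
theorem result (X : Type) [NormedAddCommGroup X] [NormedSpace ℝ X] [CompleteSpace X] :
    List.TFAE [
      ∀ F : Submodule ℝ X, TopologicalSpace.IsSeparable (F : Set X) →
        TopologicalSpace.SeparableSpace (F →L[ℝ] ℝ),
      ∃ b : X → ℝ, Differentiable ℝ b ∧ b ≠ 0 ∧ Bornology.IsBounded (Function.support b),
      ∃ b : X → ℝ, ContDiff ℝ 1 b ∧ b ≠ 0 ∧ Bornology.IsBounded (Function.support b),
      ∀ (Y : Type) [NormedAddCommGroup Y] [NormedSpace ℝ Y] (f : X → Y), Continuous f →
        ∀ ε : ℝ, 0 < ε → ∃ g : X → Y, ContDiff ℝ 1 g ∧ ∀ x, ‖f x - g x‖ < ε] := by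
  tfae_have 1 → 4 := fun h Y _ _ f hf ε hε =>
    Pool.Agent.Helper74.AS.approx_of_dent (Pool.Agent.Helper74.AS.dent_of_sep h) f hf ε hε
  tfae_have 4 → 3 := by
    intro h
    obtain ⟨g, hg, hfg⟩ := h ℝ (fun x => min ‖x‖ 3) (continuous_norm.min continuous_const)
      (1 / 2) (by norm_num)
    refine ⟨fun x => Real.smoothTransition (2 - g x), ?_, ?_, ?_⟩
    · exact (Real.smoothTransition.contDiff (n := 1)).comp (contDiff_const.sub hg)
    · intro h0
      have h1 := congrFun h0 0
      have h2 := hfg 0
      rw [Real.norm_eq_abs, abs_lt] at h2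
      have h3 : min ‖(0 : X)‖ 3 = 0 := by rw [norm_zero]; exact min_eq_left (by norm_num)
      rw [h3] at h2
      have h4 : (1 : ℝ) ≤ 2 - g 0 := by linarith [h2.1, h2.2]
      simp only [Real.smoothTransition.one_of_one_le h4, Pi.zero_apply, one_ne_zero] at h1
    · refine (Metric.isBounded_closedBall (x := (0 : X)) (r := 3)).subset ?_
      intro x hx
      rw [Metric.mem_closedBall, dist_zero_right]
      by_contra hcon
      push Not at hcon
      apply hx
      have h2 := hfg x
      rw [Real.norm_eq_abs, abs_lt] at h2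
      have h3 : min ‖x‖ 3 = 3 := min_eq_right hcon.le
      rw [h3] at h2
      exact Real.smoothTransition.zero_of_nonpos (by linarith [h2.1, h2.2])
  tfae_have 3 → 2 := fun ⟨b, hb, h1, h2⟩ => ⟨b, hb.differentiable (by norm_num), h1, h2⟩
  tfae_have 2 → 1 := fun ⟨b, hb, h1, h2⟩ F hF =>
    Pool.Agent.Helper74.AS.sep_of_bump b hb (Function.ne_iff.1 h1) h2 F hF
  tfae_finish

end Pool.Agent.Results.MP_e94b74_an.AsplundSpaces
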