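import Pool.Agent.Helper74.Apx.FinalBump

/-!
Smooth approximation of continuous maps on spaces with smooth bumps.
-/

set_option autoImplicit false

namespace Pool.Agent.Results.MP_e94b74_an.OneDerivative

/-- Let `k` be a natural number or `∞` (then `k + 1 = ∞`), and let `X` be a real Banach space
which admits a `C^(k+1)`-smooth bump function. Then every continuous map from `X` to any real
normed space is uniformly approximable by `C^k`-smooth maps. -/
theorem result (k : ℕ∞) (X : Type) [NormedAddCommGroup X] [NormedSpace ℝ X]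
    [CompleteSpace X]
    (hb : ∃ b : X → ℝ, ContDiff ℝ ((k + 1 : ℕ∞) : WithTop ℕ∞) b ∧ b ≠ 0 ∧
      Bornology.IsBounded (Function.support b))
    (Y : Type) [NormedAddCommGroup Y] [NormedSpace ℝ Y]
    (f : X → Y) (hf : Continuous f) (ε : ℝ) (hε : 0 < ε) :
    ∃ g : X → Y, ContDiff ℝ ((k : ℕ∞) : WithTop ℕ∞) g ∧ ∀ x, ‖f x - g x‖ < ε :=
  Pool.Agent.Helper74.Apx.smooth_approx k X hb Y f hf ε hε

end Pool.Agent.Results.MP_e94b74_an.OneDerivative
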